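import Mathlib

/-!
# MP_a24849_co (Q1): the excess of accurate domination over `P`-coronas is unbounded
-/

open Finset

namespace Pool.Agent.Results.MP_a24849_co.UnboundedExcess

/-- `D` is a dominating set of `G`: every vertex outside `D` has a neighbour in `D`. -/
def IsDominating {V : Type} (G : SimpleGraph V) (D : Finset V) : Prop :=
  ∀ v, v ∉ D → ∃ u ∈ D, G.Adj v u

/-- `D` is an accurate dominating set of `G`: it is dominating, and its complement contains no
dominating set with exactly `|D|` elements. -/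
def IsAccurate {V : Type} (G : SimpleGraph V) (D : Finset V) : Prop :=
  IsDominating G D ∧
    ∀ D' : Finset V, Disjoint D' D → D'.card = D.card → ¬ IsDominating G D'

/-- The accurate domination number: the least size of an accurate dominating set. -/
noncomputable def accurateNumber {V : Type} (G : SimpleGraph V) : ℕ :=
  sInf {n | ∃ D : Finset V, IsAccurate G D ∧ D.card = n}

section corona

variable {V : Type} [Fintype V] [DecidableEq V] (G : SimpleGraph V) [DecidableRel G.Adj]
  (P : ∀ v, Finpartition (G.neighborFinset v))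

/-- The vertices of the `P`-corona: `Sum.inl v` is `(v, 1)` and `Sum.inr ⟨v, A⟩` is `(v, A)`. -/
abbrev CoronaVertex : Type := V ⊕ (Σ v : V, {A : Finset V // A ∈ (P v).parts})

/-- The `P`-corona `G ∘ P`. -/
def corona : SimpleGraph (CoronaVertex G P) where
  Adj x y := match x, y with
    | .inl _, .inl _ => False
    | .inl v, .inr w => v = w.1
    | .inr w, .inl v => v = w.1
    | .inr v, .inr u => G.Adj u.1 v.1 ∧ u.1 ∈ v.2.1 ∧ v.1 ∈ u.2.1
  symm := ⟨by
    rintro (v | v) (u | u) h
    · exact h
    · exact h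
    · exact h
    · exact ⟨h.1.symm, h.2.2, h.2.1⟩⟩
  loopless := ⟨by
    rintro (v | v) h
    · exact h
    · exact G.loopless.irrefl _ h.1⟩

end corona

/-! ### The model graph -/

/-- The model graph. -/
def model (m N : ℕ) : SimpleGraph ((Fin m × Fin N) × Fin m) where
  Adj x y := (x.1 = y.1 ∧ x ≠ y ∧ (x.2 = x.1.1 ∨ y.2 = y.1.1)) ∨
    (x.2 ≠ x.1.1 ∧ x.2 = y.1.1 ∧ y.2 = x.1.1)
  symm := ⟨by
    rintro x y (⟨h1, h2, h3⟩ | ⟨h1, h2, h3⟩)
    · exact Or.inl ⟨h1.symm, h2.symm, h3.symm⟩
    · refine Or.inr ⟨?_, h3, h2⟩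
      rw [h3, ← h2]; exact h1.symm⟩
  loopless := ⟨by
    rintro x (⟨h1, h2, h3⟩ | ⟨h1, h2, h3⟩)
    · exact h2 rfl
    · exact h1 h2⟩

section key

variable {m N k : ℕ} {D : Finset ((Fin m × Fin N) × Fin m)}

lemma exists_cell (hD : IsDominating (model m N) D) (c : Fin m × Fin N) : ∃ j, (c, j) ∈ D := by
  by_cases h : (c, c.1) ∈ D
  · exact ⟨_, h⟩
  · obtain ⟨u, hu, hadj⟩ := hD _ h
    rcases hadj with ⟨h1, h2, h3⟩ | ⟨h1, h2, h3⟩
    · refine ⟨u.2, ?_⟩
      have : (c, u.2) = u := by rw [show c = u.1 from h1]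
      rw [this]; exact hu
    · exact absurd rfl h1

/-- A block outside `D` is dominated by its hub or by a block of the class it points to. -/
lemma block_dom (hD : IsDominating (model m N) D) (c : Fin m × Fin N) (j : Fin m) (hj : j ≠ c.1)
    (h : (c, j) ∉ D) : (c, c.1) ∈ D ∨ ∃ b, ((j, b), c.1) ∈ D := by
  obtain ⟨u, hu, hadj⟩ := hD _ h
  rcases hadj with ⟨h1, h2, h3⟩ | ⟨h1, h2, h3⟩
  · left
    rcases h3 with h3 | h3
    · exact absurd h3 hj
    · have h1' : c = u.1 := h1
      have : (c, c.1) = u := by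
        rw [h1']
        exact Prod.ext rfl h3.symm
      rw [this]; exact hu
  · right
    refine ⟨u.1.2, ?_⟩
    have : ((j, u.1.2), c.1) = u := by
      refine Prod.ext (Prod.ext ?_ rfl) ?_
      · exact h2
      · exact h3.symm
    rw [this]; exact hu

lemma card_extra (hcard : D.card ≤ m * N + k) (rep : Fin m × Fin N → Fin m)
    (hrep : ∀ c, (c, rep c) ∈ D) : (D.filter (fun x => x.2 ≠ rep x.1)).card ≤ k := by
  have h1 := Finset.card_filter_add_card_filter_not (s := D) (fun x => x.2 = rep x.1)
  have h2 : (D.filter (fun x => x.2 = rep x.1)).card = m * N := by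
    have : D.filter (fun x => x.2 = rep x.1) = (univ : Finset (Fin m × Fin N)).image
        (fun c => (c, rep c)) := by
      ext x
      simp only [mem_filter, mem_image, mem_univ, true_and]
      constructor
      · rintro ⟨_, h⟩
        exact ⟨x.1, by rw [← h]⟩
      · rintro ⟨c, rfl⟩
        exact ⟨hrep c, rfl⟩
    rw [this, Finset.card_image_of_injective _ (fun a b h => (Prod.ext_iff.1 h).1)]
    simp
  have h3 : (D.filter (fun x => x.2 ≠ rep x.1)).card =
      (D.filter (fun x => ¬ x.2 = rep x.1)).card := rfl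
  omega

lemma exists_notin {n : ℕ} (s : Finset (Fin n)) (h : s.card < n) : ∃ i, i ∉ s := by
  by_contra hc
  push Not at hc
  have : s = univ := by ext i; simp [hc i]
  rw [this] at h
  simp at h

lemma not_frozen (hm : k + 4 ≤ m) (hN : k < N) (hD : IsDominating (model m N) D)
    (hcard : D.card ≤ m * N + k) (a l : Fin m) (hal : a ≠ l) : ∃ w, ((a, w), l) ∉ D := by
  by_contra hc
  push Not at hc
  choose rep0 hrep0 using exists_cell hD
  obtain ⟨rep, hrep, hrepa⟩ : ∃ rep : Fin m × Fin N → Fin m, (∀ c, (c, rep c) ∈ D) ∧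
      ∀ w, rep (a, w) = l := by
    refine ⟨fun c => if c.1 = a then l else rep0 c, ?_, ?_⟩
    · rintro ⟨c, w⟩
      by_cases h : c = a
      · subst h; simpa using hc w
      · simpa [h] using hrep0 (c, w)
    · intro w; simp
  set E := D.filter (fun x => x.2 ≠ rep x.1) with hE
  have hEk : E.card ≤ k := card_extra hcard rep hrep
  have memE : ∀ x, x ∈ D → x.2 ≠ rep x.1 → x ∈ E := fun x h1 h2 => by
    rw [hE, mem_filter]; exact ⟨h1, h2⟩
  -- a single cell in class `a`
  obtain ⟨w0, hw0⟩ := exists_notin (E.image (fun x => x.1.2)) (by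
    have := Finset.card_image_le (s := E) (f := fun x => x.1.2)
    omega)
  obtain ⟨i0, hi0⟩ := exists_notin (insert a (insert l (E.image (fun x => x.1.1)))) (by
    have h1 := Finset.card_image_le (s := E) (f := fun x => x.1.1)
    have h2 := Finset.card_insert_le l (E.image (fun x => x.1.1))
    have h3 := Finset.card_insert_le a (insert l (E.image (fun x => x.1.1)))
    omega)
  simp only [mem_insert, not_or] at hi0
  obtain ⟨hi0a, hi0l, hi0E⟩ := hi0
  have hi0' : ∀ b j, ((i0, b), j) ∈ D → j = rep (i0, b) := by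
    intro b j h
    by_contra hne
    exact hi0E (mem_image.2 ⟨_, memE _ h hne, rfl⟩)
  have hw0' : ∀ j, ((a, w0), j) ∈ D → j = l := by
    intro j h
    by_contra hne
    refine hw0 (mem_image.2 ⟨_, memE _ h ?_, rfl⟩)
    rw [hrepa]; exact hne
  obtain ⟨b, hb⟩ : ∃ b, ((i0, b), a) ∈ D := by
    rcases block_dom hD (a, w0) i0 hi0a (fun h => hi0l (hw0' _ h)) with h | h
    · exact absurd (hw0' _ h) hal
    · exact h
  have hrb : rep (i0, b) = a := (hi0' _ _ hb).symm
  obtain ⟨i1, hi1⟩ := exists_notin (insert a (insert l (insert i0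
      (E.image (fun x => if x.1.1 = a then x.2 else x.1.1))))) (by
    have h1 := Finset.card_image_le (s := E) (f := fun x => if x.1.1 = a then x.2 else x.1.1)
    have h2 := Finset.card_insert_le i0 (E.image (fun x => if x.1.1 = a then x.2 else x.1.1))
    have h3 := Finset.card_insert_le l (insert i0
      (E.image (fun x => if x.1.1 = a then x.2 else x.1.1)))
    have h4 := Finset.card_insert_le a (insert l (insert i0
      (E.image (fun x => if x.1.1 = a then x.2 else x.1.1))))
    omega)
  simp only [mem_insert, not_or] at hi1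
  obtain ⟨hi1a, hi1l, hi10, hi1E⟩ := hi1
  have hi1' : ∀ b j, ((i1, b), j) ∈ D → j = rep (i1, b) := by
    intro b j h
    by_contra hne
    exact hi1E (mem_image.2 ⟨_, memE _ h hne, by simp [hi1a]⟩)
  obtain ⟨c, hc1⟩ : ∃ c, ((i1, c), i0) ∈ D := by
    rcases block_dom hD (i0, b) i1 hi10 (fun h => hi1a ((hi0' _ _ h).trans hrb)) with h | h
    · exact absurd ((hi0' _ _ h).trans hrb) hi0a
    · exact h
  have hrc : rep (i1, c) = i0 := (hi1' _ _ hc1).symm
  obtain ⟨w, hw⟩ : ∃ w, ((a, w), i1) ∈ D := by
    rcases block_dom hD (i1, c) a (Ne.symm hi1a)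
      (fun h => hi0a ((hi1' _ _ h).trans hrc).symm) with h | h
    · exact absurd ((hi1' _ _ h).trans hrc) hi10
    · exact h
  refine hi1E (mem_image.2 ⟨_, memE _ hw ?_, by simp⟩)
  rw [hrepa]; exact hi1l

lemma hall (hm : k + 4 ≤ m) (hN : m + k ≤ N) (hD : IsDominating (model m N) D)
    (hcard : D.card ≤ m * N + k) (l : Fin m) :
    ∃ f : {j : Fin m // j ≠ l} → Fin N, Function.Injective f ∧ ∀ j, ((l, f j), j.1) ∉ D := by
  classical
  obtain ⟨rep, hrep⟩ : ∃ rep : Fin m × Fin N → Fin m, ∀ c, (c, rep c) ∈ D := by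
    choose rep0 hrep0 using exists_cell hD
    exact ⟨rep0, hrep0⟩
  set E := D.filter (fun x => x.2 ≠ rep x.1) with hE
  have hEk : E.card ≤ k := card_extra hcard rep hrep
  have memE : ∀ x, x ∈ D → x.2 ≠ rep x.1 → x ∈ E := fun x h1 h2 => by
    rw [hE, mem_filter]; exact ⟨h1, h2⟩
  have key := (Finset.all_card_le_biUnion_card_iff_exists_injective
    (fun j : {j : Fin m // j ≠ l} => univ.filter (fun w : Fin N => ((l, w), j.1) ∉ D))).1 (by
      intro S
      rcases Nat.lt_or_ge S.card 2 with h | h
      · interval_cases hS : S.card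
        · simp
        · obtain ⟨j, rfl⟩ := Finset.card_eq_one.1 hS
          obtain ⟨w, hw⟩ := not_frozen hm (by omega) hD hcard l j.1 j.2.symm
          rw [Nat.one_le_iff_ne_zero, Finset.card_ne_zero]
          exact ⟨w, by simpa using hw⟩
      · obtain ⟨j1, hj1, j2, hj2, hne⟩ := Finset.one_lt_card.1 h
        have h1 : (univ : Finset (Fin N)) ⊆ (S.biUnion fun j : {j : Fin m // j ≠ l} =>
            univ.filter (fun w : Fin N => ((l, w), j.1) ∉ D)) ∪ E.image (fun x => x.1.2) := by
          intro w _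
          rw [mem_union]
          by_cases hw1 : ((l, w), j1.1) ∈ D
          · by_cases hw2 : ((l, w), j2.1) ∈ D
            · right
              by_cases hr : j1.1 = rep (l, w)
              · refine mem_image.2 ⟨_, memE _ hw2 ?_, rfl⟩
                intro h2
                exact hne (Subtype.ext (hr.trans h2.symm))
              · exact mem_image.2 ⟨_, memE _ hw1 hr, rfl⟩
            · left
              exact mem_biUnion.2 ⟨j2, hj2, by simpa using hw2⟩
          · left
            exact mem_biUnion.2 ⟨j1, hj1, by simpa using hw1⟩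
        have h2 := (Finset.card_le_card h1).trans (Finset.card_union_le _ _)
        have h3 := Finset.card_image_le (s := E) (f := fun x => x.1.2)
        have h4 : S.card ≤ m := by
          have := Finset.card_le_univ S
          have h5 : Fintype.card {j : Fin m // j ≠ l} ≤ m := by
            have := Fintype.card_subtype_le (fun j : Fin m => j ≠ l)
            simpa using this
          omega
        rw [Finset.card_univ, Fintype.card_fin] at h2
        omega)
  obtain ⟨f, hf, hf2⟩ := key
  exact ⟨f, hf, fun j => by simpa using hf2 j⟩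

lemma exists_choice (hm : k + 4 ≤ m) (hN : m + k ≤ N) (hD : IsDominating (model m N) D)
    (hcard : D.card ≤ m * N + k) :
    ∃ s : Fin m × Fin N → Fin m, (∀ c, (c, s c) ∉ D) ∧
      ∀ l j : Fin m, l ≠ j → ∃ w, s (l, w) = j := by
  classical
  obtain ⟨rep, hrep⟩ : ∃ rep : Fin m × Fin N → Fin m, ∀ c, (c, rep c) ∈ D := by
    choose rep0 hrep0 using exists_cell hD
    exact ⟨rep0, hrep0⟩
  set E := D.filter (fun x => x.2 ≠ rep x.1) with hE
  have hEk : E.card ≤ k := card_extra hcard rep hrep
  have memE : ∀ x, x ∈ D → x.2 ≠ rep x.1 → x ∈ E := fun x h1 h2 => by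
    rw [hE, mem_filter]; exact ⟨h1, h2⟩
  choose f hf hf2 using hall hm hN hD hcard
  have hs : ∀ c : Fin m × Fin N, ∃ j : Fin m, (c, j) ∉ D ∧
      ∀ j' : {j : Fin m // j ≠ c.1}, f c.1 j' = c.2 → j = j'.1 := by
    rintro ⟨l, w⟩
    by_cases h : ∃ j' : {j : Fin m // j ≠ l}, f l j' = w
    · obtain ⟨j', rfl⟩ := h
      refine ⟨j'.1, hf2 l j', ?_⟩
      intro j'' h''
      have := hf l h''
      rw [this]
    · push Not at h
      obtain ⟨j, hj⟩ := exists_notin (insert (rep (l, w)) (E.image (fun x => x.2))) (by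
        have h1 := Finset.card_image_le (s := E) (f := fun x => x.2)
        have h2 := Finset.card_insert_le (rep (l, w)) (E.image (fun x => x.2))
        omega)
      simp only [mem_insert, not_or] at hj
      refine ⟨j, ?_, fun j' hj' => absurd hj' (h j')⟩
      intro hmem
      exact hj.2 (mem_image.2 ⟨_, memE _ hmem hj.1, rfl⟩)
  choose s hs1 hs2 using hs
  refine ⟨s, hs1, ?_⟩
  intro l j hlj
  exact ⟨f l ⟨j, hlj.symm⟩, hs2 (l, f l ⟨j, hlj.symm⟩) ⟨j, hlj.symm⟩ rfl⟩

theorem model_key (hm : k + 4 ≤ m) (hN : m + k ≤ N) 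
    (hcard : D.card ≤ m * N + k) : ¬ IsAccurate (model m N) D := by
  classical
  rintro ⟨hD, hacc⟩
  obtain ⟨s, hs1, hs2⟩ := exists_choice hm hN hD hcard
  set D1 : Finset ((Fin m × Fin N) × Fin m) := univ.image (fun c => (c, s c)) with hD1
  have hD1card : D1.card = m * N := by
    rw [hD1, Finset.card_image_of_injective _ (fun a b h => (Prod.ext_iff.1 h).1)]
    simp
  have memD1 : ∀ c, (c, s c) ∈ D1 := fun c => mem_image.2 ⟨c, mem_univ _, rfl⟩
  have hD1dom : IsDominating (model m N) D1 := by
    rintro ⟨c, j⟩ hx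
    by_cases hj : j = c.1
    · refine ⟨(c, s c), memD1 c, Or.inl ⟨rfl, ?_, Or.inl hj⟩⟩
      intro h
      rw [h] at hx
      exact hx (memD1 c)
    · obtain ⟨w, hw⟩ := hs2 j c.1 hj
      refine ⟨((j, w), c.1), ?_, Or.inr ⟨hj, rfl, rfl⟩⟩
      rw [← hw]; exact memD1 _
  have hsub : D1 ⊆ Dᶜ := by
    intro x hx
    obtain ⟨c, _, rfl⟩ := mem_image.1 hx
    rw [mem_compl]; exact hs1 c
  have hcellD : m * N ≤ D.card := by
    choose rep hrep using exists_cell hD
    have : ((univ : Finset (Fin m × Fin N)).image (fun c => (c, rep c))) ⊆ D := by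
      intro x hx
      obtain ⟨c, _, rfl⟩ := mem_image.1 hx
      exact hrep c
    have h := Finset.card_le_card this
    rw [Finset.card_image_of_injective _ (fun a b h => (Prod.ext_iff.1 h).1)] at h
    simpa using h
  have hcompl : D.card ≤ Dᶜ.card := by
    rw [Finset.card_compl]
    have h1 : Fintype.card ((Fin m × Fin N) × Fin m) = m * N * m := by simp
    rw [h1]
    have h2 : 2 * (m * N + k) ≤ m * N * m := by
      have : k ≤ m * N := by nlinarith
      nlinarith
    omega
  obtain ⟨D2, h1, h2, h3⟩ := Finset.exists_subsuperset_card_eq hsub (hD1card.trans_le hcellD) hcompl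
  refine hacc D2 ?_ h3 ?_
  · rw [Finset.disjoint_left]
    intro x hx
    exact mem_compl.1 (h2 hx)
  · intro v hv
    obtain ⟨u, hu, h⟩ := hD1dom v (fun h => hv (h1 h))
    exact ⟨u, h1 hu, h⟩

end key

/-! ### The graph and the partitions -/

/-- The complete multipartite graph with `m` classes of `N` vertices. -/
def base (m N : ℕ) : SimpleGraph (Fin m × Fin N) where
  Adj x y := x.1 ≠ y.1
  symm := ⟨fun _ _ h => Ne.symm h⟩
  loopless := ⟨fun _ h => h rfl⟩

instance (m N : ℕ) : DecidableRel (base m N).Adj := fun x y =>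
  inferInstanceAs (Decidable (x.1 ≠ y.1))

/-- The `j`-th class. -/
def cls (m N : ℕ) (j : Fin m) : Finset (Fin m × Fin N) := univ.filter (fun x => x.1 = j)

lemma mem_cls {m N : ℕ} {j : Fin m} {x : Fin m × Fin N} : x ∈ cls m N j ↔ x.1 = j := by
  simp [cls]

/-- The partition of the neighbourhood of `v` into the other classes. -/
def part (m N : ℕ) (v : Fin m × Fin N) : Finpartition ((base m N).neighborFinset v) :=
  Finpartition.ofExistsUnique ((univ.erase v.1).image (cls m N))
    (by
      intro p hp x hx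
      obtain ⟨j, hj, rfl⟩ := mem_image.1 hp
      rw [SimpleGraph.mem_neighborFinset]
      rw [mem_cls] at hx
      rw [mem_erase] at hj
      show v.1 ≠ x.1
      rw [hx]; exact hj.1.symm)
    (by
      intro x hx
      rw [SimpleGraph.mem_neighborFinset] at hx
      refine ⟨cls m N x.1, ⟨mem_image.2 ⟨x.1, mem_erase.2 ⟨Ne.symm hx, mem_univ _⟩, rfl⟩,
        mem_cls.2 rfl⟩, ?_⟩
      rintro p ⟨hp, hxp⟩
      obtain ⟨j, hj, rfl⟩ := mem_image.1 hp
      rw [mem_cls] at hxp
      rw [hxp])
    (by
      intro h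
      obtain ⟨j, hj, hj2⟩ := mem_image.1 h
      have : (j, v.2) ∈ cls m N j := mem_cls.2 rfl
      rw [hj2] at this
      simp at this)

lemma cls_mem_part {m N : ℕ} {v : Fin m × Fin N} {j : Fin m} (h : j ≠ v.1) :
    cls m N j ∈ (part m N v).parts := by
  show cls m N j ∈ ((univ.erase v.1).image (cls m N))
  exact mem_image.2 ⟨j, mem_erase.2 ⟨h, mem_univ _⟩, rfl⟩

lemma exists_of_mem_part {m N : ℕ} {v : Fin m × Fin N} {A : Finset (Fin m × Fin N)}
    (h : A ∈ (part m N v).parts) : ∃ j, j ≠ v.1 ∧ cls m N j = A := by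
  have h' : A ∈ ((univ.erase v.1).image (cls m N)) := h
  obtain ⟨j, hj, rfl⟩ := mem_image.1 h'
  exact ⟨j, (mem_erase.1 hj).1, rfl⟩

/-- The map from the model to the corona. -/
def toCorona (m N : ℕ) (x : (Fin m × Fin N) × Fin m) : CoronaVertex (base m N) (part m N) :=
  if h : x.2 = x.1.1 then Sum.inl x.1
  else Sum.inr ⟨x.1, ⟨cls m N x.2, cls_mem_part h⟩⟩

lemma cls_inj {m N : ℕ} (a : Fin N) {i j : Fin m} (h : cls m N i = cls m N j) : i = j := by
  have h1 : (i, a) ∈ cls m N i := mem_cls.2 rfl
  rw [h] at h1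
  exact mem_cls.1 h1

lemma toCorona_bijective (m N : ℕ) : Function.Bijective (toCorona m N) := by
  constructor
  · rintro ⟨c, j⟩ ⟨c', j'⟩ h
    unfold toCorona at h
    dsimp only at h
    split_ifs at h with h1 h2 h2
    · have h3 := Sum.inl.inj h
      subst h3
      rw [h1, h2]
    · have h3 := Sum.inr.inj h
      obtain ⟨h4, h5⟩ := Sigma.mk.inj h3
      subst h4
      have h6 := Subtype.ext_iff.1 (eq_of_heq h5)
      rw [cls_inj c.2 h6]
  · rintro (v | ⟨v, A, hA⟩)
    · exact ⟨(v, v.1), by simp [toCorona]⟩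
    · obtain ⟨j, hj, rfl⟩ := exists_of_mem_part hA
      exact ⟨(v, j), by simp [toCorona, hj]⟩

/-- The model is isomorphic to the corona. -/
noncomputable def iso (m N : ℕ) : model m N ≃g corona (base m N) (part m N) where
  toEquiv := Equiv.ofBijective _ (toCorona_bijective m N)
  map_rel_iff' := by
    rintro ⟨c, j⟩ ⟨c', j'⟩
    simp only [Equiv.ofBijective_apply]
    unfold toCorona
    dsimp only
    split_ifs with h1 h2 h2
    · -- hub, hub
      subst h1 h2
      show False ↔ _
      constructor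
      · exact False.elim
      · rintro (⟨h1, h2, h3⟩ | ⟨h1, h2, h3⟩)
        · apply h2
          have h1' : c = c' := h1
          subst h1'; rfl
        · exact h1 rfl
    · subst h1
      show c = c' ↔ _
      constructor
      · rintro rfl
        refine Or.inl ⟨rfl, ?_, Or.inl rfl⟩
        intro h
        exact h2 (Prod.ext_iff.1 h).2.symm
      · rintro (⟨h1, _, _⟩ | ⟨h1, _, _⟩)
        · exact h1
        · exact absurd rfl h1
    · subst h2
      show c' = c ↔ _
      constructor
      · rintro rfl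
        refine Or.inl ⟨rfl, ?_, Or.inr rfl⟩
        intro h
        exact h1 (Prod.ext_iff.1 h).2
      · rintro (⟨h1, _, _⟩ | ⟨h3, h4, h5⟩)
        · exact h1.symm
        · exfalso
          apply h3
          have h4' : j = c'.1 := h4
          have h5' : c'.1 = c.1 := h5
          show j = c.1
          rw [h4', h5']
    · show (c'.1 ≠ c.1 ∧ c' ∈ cls m N j ∧ c ∈ cls m N j') ↔ _
      rw [mem_cls, mem_cls]
      constructor
      · rintro ⟨h3, h4, h5⟩
        exact Or.inr ⟨h1, h4.symm, h5.symm⟩
      · rintro (⟨_, _, h3 | h3⟩ | ⟨h3, h4, h5⟩)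
        · exact absurd h3 h1
        · exact absurd h3 h2
        · have h4' : j = c'.1 := h4
          have h5' : j' = c.1 := h5
          refine ⟨?_, h4'.symm, h5'.symm⟩
          rw [← h4']; exact h1

lemma dominating_iso {V W : Type} {G : SimpleGraph V} {H : SimpleGraph W} (e : G ≃g H)
    (D : Finset V) : IsDominating H (D.map e.toEquiv.toEmbedding) ↔ IsDominating G D := by
  constructor
  · intro h v hv
    obtain ⟨u, hu, hadj⟩ := h (e v) (by
      intro h
      rw [Finset.mem_map] at h
      obtain ⟨w, hw, hw2⟩ := h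
      have : w = v := e.toEquiv.injective hw2
      rw [this] at hw
      exact hv hw)
    rw [Finset.mem_map] at hu
    obtain ⟨w, hw, rfl⟩ := hu
    exact ⟨w, hw, e.map_rel_iff.1 hadj⟩
  · intro h v hv
    obtain ⟨v', rfl⟩ := e.toEquiv.surjective v
    obtain ⟨u, hu, hadj⟩ := h v' (fun h => hv (Finset.mem_map.2 ⟨v', h, rfl⟩))
    exact ⟨e u, Finset.mem_map.2 ⟨u, hu, rfl⟩, e.map_rel_iff.2 hadj⟩

lemma accurate_iso {V W : Type} {G : SimpleGraph V} {H : SimpleGraph W} (e : G ≃g H)
    (D : Finset W) (hD : IsAccurate H D) :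
    IsAccurate G (D.map e.symm.toEquiv.toEmbedding) := by
  refine ⟨(dominating_iso e.symm D).2 hD.1, ?_⟩
  intro D' hdis hcard hdom
  refine hD.2 (D'.map e.toEquiv.toEmbedding) ?_ ?_ ((dominating_iso e D').2 hdom)
  · rw [Finset.disjoint_left] at hdis ⊢
    intro x hx hxD
    obtain ⟨y, hy, rfl⟩ := Finset.mem_map.1 hx
    refine hdis hy (Finset.mem_map.2 ⟨_, hxD, ?_⟩)
    simp
  · rw [Finset.card_map, hcard, Finset.card_map]

/-- For every `k` there are a graph `G` and a family `P` of partitions of its neighbourhoods such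
that the accurate domination number of the `P`-corona exceeds `|V_G| + k`. -/
theorem result : ∀ k : ℕ, ∃ (V : Type) (_ : Fintype V) (_ : DecidableEq V) (G : SimpleGraph V)
    (_ : DecidableRel G.Adj) (P : ∀ v, Finpartition (G.neighborFinset v)),
    Fintype.card V + k < accurateNumber (corona G P) := by
  intro k
  refine ⟨Fin (k + 4) × Fin (2 * k + 4), inferInstance, inferInstance,
    base (k + 4) (2 * k + 4), inferInstance, part (k + 4) (2 * k + 4), ?_⟩
  set m := k + 4 with hm
  set N := 2 * k + 4 with hN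
  have hne : {n | ∃ D : Finset (CoronaVertex (base m N) (part m N)),
      IsAccurate (corona (base m N) (part m N)) D ∧ D.card = n}.Nonempty := by
    refine ⟨_, univ, ⟨fun v hv => absurd (mem_univ v) hv, ?_⟩, rfl⟩
    intro D' hdis hcard _
    have h1 : D' = univ := by
      apply Finset.eq_univ_of_card
      rw [hcard, Finset.card_univ]
    subst h1
    have h2 : (Sum.inl ((⟨0, by omega⟩ : Fin m), (⟨0, by omega⟩ : Fin N)) :
      CoronaVertex (base m N) (part m N)) ∈ (univ : Finset _) := mem_univ _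
    exact Finset.disjoint_left.1 hdis h2 h2
  have hmem := Nat.sInf_mem hne
  obtain ⟨D, hD, hcard⟩ := hmem
  unfold accurateNumber
  rw [← hcard]
  by_contra hlt
  push Not at hlt
  refine model_key (k := k) (m := m) (N := N) (by omega) (by omega) ?_
    (accurate_iso (iso m N) D hD)
  rw [Finset.card_map]
  simpa using hlt

end Pool.Agent.Results.MP_a24849_co.UnboundedExcess
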